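import Pool.Agent.Lib.MP_a0a3ff_co.Final

namespace Pool.Agent.Results.MP_a0a3ff_co.TwoHoles

open Pool.Agent.Lib.MP_a0a3ff_co

/-- Every `K_{1,d}`-free finite graph of large tree-independence number contains two non-adjacent
induced cycles such that every separator between them has independence number at least `η`. -/
theorem result : ∃ f : ℕ → ℕ → ℕ, ∀ η d : ℕ, 1 ≤ η → 1 ≤ d →
    ∀ (V : Type) [Fintype V] (G : SimpleGraph V), StarFree G d → f η d ≤ treeAlpha G →
      ∃ C₁ C₂ : Set V, IsInducedCycle G C₁ ∧ IsInducedCycle G C₂ ∧ NonAdjacent G C₁ C₂ ∧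
        ∀ S : Set V, IsSeparator G C₁ C₂ S → η ≤ alpha G S :=
  ⟨fun η d => 3 * kk η d + 2, fun _ _ _ hd _ _ _ hs h => main hd hs h⟩

end Pool.Agent.Results.MP_a0a3ff_co.TwoHoles
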